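import Pool.Agent.H55.FFM.TP

/-!
# Rows CMP and GRM of ffm_modules
-/

namespace Pool.Agent.H72.FFM

open IsDedekindDomain Pool.Agent.H55.FFM

/-- the tower formulas for three fields -/
theorem cmp_gen (K L M : Type) [Field K] [Field L] [Field M] (σ : K →+* L) (τ : L →+* M)
    (h1 : 1 ≤ @Module.finrank K L _ _ σ.toAlgebra.toModule)
    (h2 : 1 ≤ @Module.finrank L M _ _ τ.toAlgebra.toModule) :
    @Module.finrank K M _ _ (τ.comp σ).toAlgebra.toModule =
      @Module.finrank L M _ _ τ.toAlgebra.toModule *
        @Module.finrank K L _ _ σ.toAlgebra.toModule ∧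
    ∀ a : M, @Algebra.trace K M _ _ (τ.comp σ).toAlgebra a =
      @Algebra.trace K L _ _ σ.toAlgebra (@Algebra.trace L M _ _ τ.toAlgebra a) := by
  letI := σ.toAlgebra
  letI := τ.toAlgebra
  letI := (τ.comp σ).toAlgebra
  haveI : IsScalarTower K L M := IsScalarTower.of_algebraMap_eq (fun x => rfl)
  haveI : FiniteDimensional K L := FiniteDimensional.of_finrank_pos h1
  haveI : FiniteDimensional L M := FiniteDimensional.of_finrank_pos h2
  constructor
  · rw [mul_comm]
    exact (Module.finrank_mul_finrank K L M).symm
  · intro a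
    exact (Algebra.trace_trace (R := K) (S := L) (T := M) a).symm

theorem pf_CMP (hTMX : T_TMX) (hBAS : T_BAS) : T_CMP := by
  intro F _ τ σ hτ hσ
  have _h1 := hTMX
  have _h2 := hBAS
  exact cmp_gen F F F σ τ hσ hτ

/-- the discriminant -/
theorem gram_gen (K L : Type) [Field K] [Field L] [CharZero K] [Algebra K L] (E : ℕ)
    (b : Fin E → L) (hb : ∀ a : L, ∃! c : Fin E → K, a = ∑ i, algebraMap K L (c i) * b i) :
    (Matrix.of fun i j => Algebra.trace K L (b i * b j)).det ≠ 0 := by
  have hli : LinearIndependent K b := by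
    rw [Fintype.linearIndependent_iff]
    intro g hg i
    obtain ⟨c, _, hc2⟩ := hb 0
    have e1 : g = c := hc2 g (by
      rw [← hg]
      exact Finset.sum_congr rfl fun j _ => (Algebra.smul_def _ _))
    have e2 : (0 : Fin E → K) = c := hc2 0 (by simp)
    rw [e1, ← e2]
    rfl
  have hsp : ⊤ ≤ Submodule.span K (Set.range b) := by
    intro a _
    obtain ⟨c, hc, _⟩ := hb a
    rw [hc]
    refine Submodule.sum_mem _ fun i _ => ?_
    rw [← Algebra.smul_def]
    exact Submodule.smul_mem _ _ (Submodule.subset_span ⟨i, rfl⟩)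
  let B : Module.Basis (Fin E) K L := Module.Basis.mk hli hsp
  haveI : FiniteDimensional K L := B.finiteDimensional_of_finite
  have hB : ∀ i, B i = b i := fun i => by
    simp [B]
  have h := Algebra.discr_not_zero_of_basis K B
  rw [Algebra.discr_def] at h
  have he : Algebra.traceMatrix K B = Matrix.of fun i j => Algebra.trace K L (b i * b j) := by
    ext i j
    rw [Algebra.traceMatrix_apply, Algebra.traceForm_apply, hB, hB, Matrix.of_apply]
  rwa [he] at h

theorem pf_GRM (hTMX : T_TMX) (hTLN : T_TLN) : T_GRM := by
  intro F _ _ τ E b hb hE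
  constructor
  · exact @gram_gen F F _ _ _ τ.toAlgebra E b hb
  · intro x hx
    have hdeh : deh τ = E := (hTMX F τ E b hb).1
    obtain ⟨hadd, hlin, -, -, -⟩ := hTLN F τ (by rw [hdeh]; exact hE)
    have h0 : trh τ 0 = 0 := by
      have := hadd 0 0
      rw [add_zero] at this
      linear_combination -this
    have hsum : ∀ (s : Finset (Fin E)) (g : Fin E → F), trh τ (∑ i ∈ s, g i) =
        ∑ i ∈ s, trh τ (g i) := by
      intro s g
      classical
      induction s using Finset.induction_on with
      | empty => simpa using h0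
      | insert i s hi ih => rw [Finset.sum_insert hi, Finset.sum_insert hi, hadd, ih]
    choose A hA _ using fun i => (hb (x * b i))
    have hA' : ∀ i, x * b i = ∑ l, τ (A i l) * b l := fun i => hA i
    have hdet : nmh τ x = (Matrix.of fun l i => A i l).det :=
      ((hTMX F τ E b hb).2 x (Matrix.of fun l i => A i l) (fun j => hA' j)).2
    have hG : (Matrix.of fun i j => trh τ (b i * b j)) =
        (Matrix.of fun l i => A i l).transpose *
          (Matrix.of fun i j => trh τ (b i * b j / x)) := by
      ext i j
      rw [Matrix.mul_apply, Matrix.of_apply]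
      have e1 : b i * b j = ∑ l, τ (A i l) * (b l * b j / x) := by
        have e2 : b i * b j = (x * b i) * b j / x := by
          field_simp
        rw [e2, hA' i, Finset.sum_mul, Finset.sum_div]
        refine Finset.sum_congr rfl fun l _ => ?_
        ring
      rw [e1, hsum]
      refine Finset.sum_congr rfl fun l _ => ?_
      rw [hlin]
      rfl
    rw [hG, Matrix.det_mul, Matrix.det_transpose, hdet]

end Pool.Agent.H72.FFM
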