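import Pool.Agent.H55.FFM.TP

/-!
# Rows JNT and TRC of ffm_modules
-/

namespace Pool.Agent.H72.FFM

open IsDedekindDomain Pool.Agent.H55.FFM

theorem lin_gen (K L : Type) [Field K] [Field L] (τ : K →+* L) (c : K) (a : L) :
    @Algebra.trace K L _ _ τ.toAlgebra (τ c * a) = c * @Algebra.trace K L _ _ τ.toAlgebra a := by
  letI := τ.toAlgebra
  have h := map_smul (Algebra.trace K L) c a
  rw [Algebra.smul_def, smul_eq_mul] at h
  exact h

theorem deh_one (F : Type) [Field F] : deh (1 : F →+* F) = 1 := by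
  unfold deh
  exact Module.finrank_self F

theorem trh_one (F : Type) [Field F] (a : F) : trh (1 : F →+* F) a = a := by
  unfold trh
  exact Algebra.trace_self_apply a

theorem pf_JNT (hCMP : T_CMP) : T_JNT := by
  intro F _ τ R J hJ hJ0 hR hdeh htr n
  induction n with
  | zero =>
    refine ⟨?_, fun q hq => ?_⟩
    · rw [pow_zero, pow_zero]
      exact deh_one F
    · rw [pow_zero, trh_one, Finset.range_zero, Finset.prod_empty, div_one]
      exact hq
  | succ n ih =>
    have hn : 1 ≤ deh (τ ^ n) := by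
      rw [ih.1]
      exact Nat.one_le_pow _ _ hdeh
    have hc := hCMP F τ (τ ^ n) hdeh hn
    have hcomp : τ ^ (n + 1) = τ.comp (τ ^ n) := by
      rw [pow_succ']
      rfl
    refine ⟨?_, fun q hq => ?_⟩
    · rw [hcomp, hc.1, ih.1, pow_succ']
    · rw [hcomp, hc.2]
      have h1 : ∏ i ∈ Finset.range (n + 1), (τ ^ i) J =
          τ (∏ i ∈ Finset.range n, (τ ^ i) J) * J := by
        rw [Finset.prod_range_succ', map_prod]
        congr 1
        refine Finset.prod_congr rfl fun i _ => ?_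
        rw [pow_succ']
        rfl
      have h2 : q / ∏ i ∈ Finset.range (n + 1), (τ ^ i) J =
          τ (∏ i ∈ Finset.range n, (τ ^ i) J)⁻¹ * (q / J) := by
        rw [h1, map_inv₀, div_mul_eq_div_div, inv_mul_eq_div, div_right_comm]
      have h3 : trh τ (q / ∏ i ∈ Finset.range (n + 1), (τ ^ i) J) =
          trh τ (q / J) / ∏ i ∈ Finset.range n, (τ ^ i) J := by
        rw [h2]
        unfold trh
        rw [lin_gen, inv_mul_eq_div]
      rw [h3]
      exact ih.2 _ (htr q hq)

section Val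

variable {F : Type} [Field F] (w : F → ℤ)

/-- the sum of two elements with different valuations -/
theorem val_ne (hmul : ∀ a b, a ≠ 0 → b ≠ 0 → w (a * b) = w a + w b)
    (hadd : ∀ a b, a ≠ 0 → b ≠ 0 → a + b ≠ 0 → min (w a) (w b) ≤ w (a + b))
    (hneg : w (-1) = 0) {x y : F} (hx : x ≠ 0) (hy : y ≠ 0) (h : w x < w y) :
    x + y ≠ 0 ∧ w (x + y) = w x := by
  have hn : ∀ z : F, z ≠ 0 → w (-z) = w z := by
    intro z hz
    rw [show -z = (-1) * z by ring, hmul _ _ (by simp) hz, hneg, zero_add]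
  have h0 : x + y ≠ 0 := by
    intro h1
    have h2 : x = -y := by linear_combination h1
    rw [h2, hn y hy] at h
    exact lt_irrefl _ h
  refine ⟨h0, ?_⟩
  have h1 := hadd x y hx hy h0
  rw [min_eq_left h.le] at h1
  have h2 := hadd (x + y) (-y) h0 (neg_ne_zero.2 hy) (by simpa using hx)
  rw [hn y hy, add_neg_cancel_right] at h2
  rcases min_le_iff.1 h2 with h3 | h3
  · exact le_antisymm h3 h1
  · exact absurd h (not_lt.2 h3)

/-- a sum with different valuations -/
theorem val_sum {ι : Type} [DecidableEq ι]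
    (hmul : ∀ a b, a ≠ 0 → b ≠ 0 → w (a * b) = w a + w b)
    (hadd : ∀ a b, a ≠ 0 → b ≠ 0 → a + b ≠ 0 → min (w a) (w b) ≤ w (a + b))
    (hneg : w (-1) = 0) (T : Finset ι) (t : ι → F) :
    T.Nonempty → (∀ i ∈ T, t i ≠ 0) → (∀ i ∈ T, ∀ j ∈ T, w (t i) = w (t j) → i = j) →
    ∑ i ∈ T, t i ≠ 0 ∧ (∀ i ∈ T, w (∑ i ∈ T, t i) ≤ w (t i)) ∧
      ∃ i ∈ T, w (∑ i ∈ T, t i) = w (t i) := by
  induction T using Finset.induction_on with
  | empty => intro h; exact absurd h (by simp)
  | insert i T hi ih =>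
    intro _ hne hinj
    rcases T.eq_empty_or_nonempty with rfl | hT
    · simp only [insert_empty_eq, Finset.sum_singleton, Finset.mem_singleton, forall_eq,
        exists_eq_left, le_refl, and_self, and_true]
      exact hne i (by simp)
    · obtain ⟨h0, hle, j, hj, hje⟩ := ih hT (fun l hl => hne l (Finset.mem_insert_of_mem hl))
        (fun l hl l' hl' => hinj l (Finset.mem_insert_of_mem hl) l'
          (Finset.mem_insert_of_mem hl'))
      have hi0 := hne i (Finset.mem_insert_self i T)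
      rw [Finset.sum_insert hi]
      have hne' : w (t i) ≠ w (∑ i ∈ T, t i) := by
        rw [hje]
        intro h
        have := hinj i (Finset.mem_insert_self i T) j (Finset.mem_insert_of_mem hj) h
        subst this
        exact hi hj
      rcases lt_or_gt_of_ne hne' with h | h
      · obtain ⟨h1, h2⟩ := val_ne w hmul hadd hneg hi0 h0 h
        refine ⟨h1, fun l hl => ?_, i, Finset.mem_insert_self i T, h2⟩
        rw [h2]
        rcases Finset.mem_insert.1 hl with rfl | hl
        · exact le_rfl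
        · exact h.le.trans (hle l hl)
      · obtain ⟨h1, h2⟩ := val_ne w hmul hadd hneg h0 hi0 h
        rw [add_comm] at h1 h2
        refine ⟨h1, fun l hl => ?_, j, Finset.mem_insert_of_mem hj, by rw [h2, hje]⟩
        rw [h2]
        rcases Finset.mem_insert.1 hl with rfl | hl
        · exact h.le
        · exact hle l hl

/-- the lower bound for a sum -/
theorem val_low {ι : Type} [DecidableEq ι] (e m : ℤ) (he : 0 < e)
    (hadd : ∀ a b, a ≠ 0 → b ≠ 0 → a + b ≠ 0 → min (w a) (w b) ≤ w (a + b))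
    (T : Finset ι) (t : ι → F) :
    (∀ i ∈ T, t i ≠ 0 → m ≤ e * w (t i)) → ∑ i ∈ T, t i ≠ 0 → m ≤ e * w (∑ i ∈ T, t i) := by
  induction T using Finset.induction_on with
  | empty => intro _ h; simp at h
  | insert i T hi ih =>
    intro hb h0
    rw [Finset.sum_insert hi] at h0 ⊢
    have hT := ih (fun l hl => hb l (Finset.mem_insert_of_mem hl))
    by_cases h1 : t i = 0
    · rw [h1, zero_add] at h0 ⊢
      exact hT h0
    · by_cases h2 : ∑ l ∈ T, t l = 0
      · rw [h2, add_zero]
        exact hb i (Finset.mem_insert_self i T) h1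
      · have h3 := hadd _ _ h1 h2 h0
        have h4 := hb i (Finset.mem_insert_self i T) h1
        have h5 := hT h2
        rcases min_le_iff.1 h3 with h6 | h6
        · exact h4.trans (mul_le_mul_of_nonneg_left h6 he.le)
        · exact h5.trans (mul_le_mul_of_nonneg_left h6 he.le)

/-- products -/
theorem val_prod {ι : Type} [DecidableEq ι]
    (hmul : ∀ a b, a ≠ 0 → b ≠ 0 → w (a * b) = w a + w b) (h1 : w 1 = 0)
    (T : Finset ι) (t : ι → F) (ht : ∀ i ∈ T, t i ≠ 0) :
    w (∏ i ∈ T, t i) = ∑ i ∈ T, w (t i) := by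
  induction T using Finset.induction_on with
  | empty => simpa using h1
  | insert i T hi ih =>
    rw [Finset.prod_insert hi, Finset.sum_insert hi,
      hmul _ _ (ht i (Finset.mem_insert_self i T))
        (Finset.prod_ne_zero_iff.2 fun l hl => ht l (Finset.mem_insert_of_mem hl)),
      ih fun l hl => ht l (Finset.mem_insert_of_mem hl)]

end Val

theorem pf_TRC (hBAS : T_BAS) (hTMX : T_TMX) (hIND : T_IND) (hTLN : T_TLN) : T_TRC := by
  classical
  have _h := hBAS
  intro k F S _ _ _ v hv τ E s s' hdeh hE hval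
  obtain ⟨p, hp0, hp1⟩ := hv.nrm s
  have hw1 : ∀ s, v s 1 = 0 := by
    intro s
    have := hv.cst s 1 one_ne_zero
    rwa [map_one] at this
  have hwn : ∀ s, v s (-1) = 0 := by
    intro s
    have := hv.cst s (-1) (by simp)
    rwa [map_neg, map_one] at this
  have hpow : ∀ i : ℕ, v s (p ^ i) = i := by
    intro i
    induction i with
    | zero => rw [pow_zero, hw1]; rfl
    | succ i ih => rw [pow_succ, hv.mul s _ _ (pow_ne_zero _ hp0) hp0, ih, hp1]; push_cast; rfl
  have hEpos : (0 : ℤ) < E := by exact_mod_cast hE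
  have hmod : ∀ i j : Fin E, (E : ℤ) ∣ ((i : ℕ) : ℤ) - ((j : ℕ) : ℤ) → i = j := by
    intro i j hd
    have hi : (((i : ℕ) : ℤ)) < E := by exact_mod_cast i.isLt
    have hj : (((j : ℕ) : ℤ)) < E := by exact_mod_cast j.isLt
    have h1 : ((i : ℕ) : ℤ) - ((j : ℕ) : ℤ) = 0 :=
      Int.eq_zero_of_abs_lt_dvd hd (by rw [abs_lt]; constructor <;> omega)
    apply Fin.ext
    omega
  have hb : Bas τ (fun i : Fin E => p ^ (i : ℕ)) := by
    refine hIND k F S v hv τ E s s' hdeh hE hval _ (fun i => pow_ne_zero _ hp0) ?_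
    intro i j hd
    rw [hpow, hpow] at hd
    exact hmod i j hd
  -- the coordinates
  have key : ∀ (c : Fin E → F) (x : F), x ≠ 0 → x = ∑ i, τ (c i) * p ^ (i : ℕ) →
      ∀ i, c i ≠ 0 → v s x - ((i : ℕ) : ℤ) ≤ E * v s' (c i) := by
    intro c x hx hxe i hi
    have hτ0 : ∀ i, c i ≠ 0 → τ (c i) ≠ 0 := fun i h => (map_ne_zero τ).2 h
    have hvt : ∀ i, c i ≠ 0 → v s (τ (c i) * p ^ (i : ℕ)) = E * v s' (c i) + ((i : ℕ) : ℤ) := by
      intro i h
      rw [hv.mul s _ _ (hτ0 i h) (pow_ne_zero _ hp0), hval _ h, hpow]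
    have hsum : x = ∑ i ∈ Finset.univ.filter (fun i => c i ≠ 0), τ (c i) * p ^ (i : ℕ) := by
      rw [hxe, Finset.sum_filter]
      refine Finset.sum_congr rfl fun i _ => ?_
      split_ifs with h
      · rfl
      · rw [not_not] at h
        rw [h, map_zero, zero_mul]
    have hmem : i ∈ Finset.univ.filter (fun i => c i ≠ 0) := by
      rw [Finset.mem_filter]
      exact ⟨Finset.mem_univ _, hi⟩
    obtain ⟨-, h2, -⟩ := val_sum (v s) (hv.mul s) (hv.add s) (hwn s)
      (Finset.univ.filter (fun i => c i ≠ 0)) (fun i : Fin E => τ (c i) * p ^ (i : ℕ))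
      ⟨i, hmem⟩ (fun l hl => mul_ne_zero (hτ0 l (Finset.mem_filter.1 hl).2) (pow_ne_zero _ hp0))
      (fun l hl l' hl' h => by
        rw [hvt l (Finset.mem_filter.1 hl).2, hvt l' (Finset.mem_filter.1 hl').2] at h
        apply hmod
        refine ⟨v s' (c l') - v s' (c l), ?_⟩
        linear_combination h)
    have h3 := h2 i hmem
    rw [← hsum, hvt i hi] at h3
    linarith
  have hlow : ∀ a : F, a ≠ 0 → (trh τ a ≠ 0 → v s a ≤ E * v s' (trh τ a)) ∧
      v s a ≤ v s' (nmh τ a) := by
    intro a ha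
    choose c hc _ using fun j : Fin E => (hb (a * p ^ (j : ℕ)))
    have hc' : ∀ j : Fin E, a * p ^ (j : ℕ) = ∑ i, τ (c j i) * p ^ (i : ℕ) := fun j => hc j
    have hT := (hTMX F τ E _ hb).2 a (Matrix.of fun i j => c j i) (fun j => hc' j)
    have hcv : ∀ i j : Fin E, c j i ≠ 0 →
        v s a + ((j : ℕ) : ℤ) - ((i : ℕ) : ℤ) ≤ E * v s' (c j i) := by
      intro i j h
      have h1 := key (c j) (a * p ^ (j : ℕ)) (mul_ne_zero ha (pow_ne_zero _ hp0)) (hc' j) i h
      rw [hv.mul s _ _ ha (pow_ne_zero _ hp0), hpow] at h1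
      exact h1
    constructor
    · intro h0
      rw [hT.1] at h0 ⊢
      refine val_low (v s') (E : ℤ) (v s a) hEpos (hv.add s') Finset.univ _ ?_ h0
      intro j _ hj
      have := hcv j j hj
      rw [Matrix.of_apply]
      linarith
    · have hn0 : nmh τ a ≠ 0 := by
        intro h
        exact ha (((hTLN F τ (by rw [hdeh]; exact hE)).2.2.2.2 a).1 h)
      have h1 : (E : ℤ) * v s a ≤ E * v s' (nmh τ a) := by
        rw [hT.2, Matrix.det_apply] at hn0 ⊢
        refine val_low (v s') (E : ℤ) (E * v s a) hEpos (hv.add s') Finset.univ _ ?_ hn0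
        intro π _ hπ
        have hsg : ∀ x : F, x ≠ 0 → v s' (Equiv.Perm.sign π • x) = v s' x := by
          intro x hx
          rcases Int.units_eq_one_or (Equiv.Perm.sign π) with h | h
          · rw [h, one_smul]
          · rw [h, Units.neg_smul, one_smul, show -x = (-1) * x by ring,
              hv.mul s' _ _ (by simp) hx, hwn, zero_add]
        have hpr : ∏ j, (Matrix.of fun i j => c j i) (π j) j ≠ 0 := by
          intro h
          rw [h, smul_zero] at hπ
          exact hπ rfl
        rw [hsg _ hpr, val_prod (v s') (hv.mul s') (hw1 s') Finset.univ _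
          (Finset.prod_ne_zero_iff.1 hpr), Finset.mul_sum]
        have h2 : ∀ j ∈ (Finset.univ : Finset (Fin E)),
            v s a + ((j : ℕ) : ℤ) - (((π j : Fin E) : ℕ) : ℤ) ≤
              E * v s' ((Matrix.of fun i j => c j i) (π j) j) := by
          intro j _
          exact hcv (π j) j (Finset.prod_ne_zero_iff.1 hpr j (Finset.mem_univ j))
        refine le_trans (le_of_eq ?_) (Finset.sum_le_sum h2)
        rw [Finset.sum_sub_distrib, Finset.sum_add_distrib, Finset.sum_const, Finset.card_univ,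
          Fintype.card_fin, nsmul_eq_mul,
          Equiv.sum_comp π (fun j : Fin E => ((j : ℕ) : ℤ))]
        ring
      exact le_of_mul_le_mul_left h1 hEpos
  intro a ha
  refine ⟨(hlow a ha).1, le_antisymm ?_ (hlow a ha).2⟩
  obtain ⟨-, -, hnm, hnc, hn0⟩ := hTLN F τ (by rw [hdeh]; exact hE)
  have h1 := (hlow a⁻¹ (inv_ne_zero ha)).2
  have hone : nmh τ (1 : F) = 1 := by
    have := hnc 1
    rwa [map_one, one_pow] at this
  have hprod : nmh τ a * nmh τ a⁻¹ = 1 := by
    rw [← hnm, mul_inv_cancel₀ ha, hone]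
  have hna : nmh τ a ≠ 0 := fun h => ha ((hn0 a).1 h)
  have hni : nmh τ a⁻¹ ≠ 0 := fun h => inv_ne_zero ha ((hn0 _).1 h)
  have h2 : v s' (nmh τ a) + v s' (nmh τ a⁻¹) = 0 := by
    rw [← hv.mul s' _ _ hna hni, hprod, hw1]
  have h3 : v s a + v s a⁻¹ = 0 := by
    rw [← hv.mul s _ _ ha (inv_ne_zero ha), mul_inv_cancel₀ ha, hw1]
  linarith

end Pool.Agent.H72.FFM
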